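import Mathlib
import Pool.Agent.H19PS.J

/-! Unramified period-index at the characteristic: curves times ordinary abelian varieties. -/

set_option autoImplicit false
set_option linter.all false

open scoped TensorProduct

namespace Pool.Agent.Results.MP_43d240_ag.CharacteristicPart

open Pool.Agent.Helper18.Br Pool.Agent.H552R3.SymBr Pool.Agent.H552R3.Tsen Pool.Agent.Y109.PI Pool.Agent.H19PS

universe u v

/-- Let `k` be an algebraically closed field of characteristic `p > 0` and `K` an extension of `k`. For `x ∈ K` and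
`y ∈ Kˣ` let `[x, y)` be the class of the algebra with generators `X, Y` and relations `X ^ p - X = x`,
`Y ^ p = y`, `Y X = (X + 1) Y`. Let `a_1, ..., a_g ∈ K` and `b_1, ..., b_g ∈ Kˣ`.

(A) Let `L` be an intermediate field, `M` the additive group generated by `L` and the `a_i`, and `G` the group
generated by `Lˣ` and the `b_j`; let `V` be the subgroup of `Br(K)` generated by all `[x, y)` with `x, y ∈ L`, and `N`
the one generated by all `[x, y)` with `x ∈ M`, `y ∈ G` and `x ∈ L` or `y ∈ L`. Assume that
- `g < p` and `∑ w_ij [a_i, b_j) ∈ N` for an integral matrix `w` with determinant prime to `p`, or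
- `∑ w_k,ij [a_i, b_j) ∈ N` for integral matrices `w_1, ..., w_g` such that the number of `c ∈ F_p ^ g` for which
  `∑ c_k w_k` is singular over `F_p` is not divisible by `p`, or
- `a_i` and `b_i` are algebraically dependent over `k` for all `i`.
Let `z_1, ..., z_s ∈ Kˣ` and let `α` be in the subgroup generated by all `[x, y)` with `x ∈ M`, `y ∈ G` and all
`[x, z_j)` with `x ∈ K`. Then `α` is the sum of `g + s` symbols `[x, y)` and an element of `V`; if the index of all
elements of `V` divides `m`, then the index of `α` divides `m * p ^ (g + s)`; if `L` has transcendence degree at most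
one over `k`, then `V = 0` and the index of `α` divides `p ^ (g + s)`.

(B) Assume `g ≥ 1` and: `∑ w_k,ij [a_i, b_j) = 0` for integral matrices `w_1, ..., w_g` as in the second case of (A),
or `a_i` and `b_i` are algebraically dependent over `k` for all `i`. Then every `α` in the subgroup generated by
the `[x, y)` with `x` in the additive group generated by `k` and the `a_i`, and `y` in the group generated by
`kˣ` and the `b_j`, is the sum of `g - 1` symbols, and its index divides `p ^ (g - 1)`.

(C) The condition on the `w_k` holds for the relations of real multiplication: let `O` be a commutative ring which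
is free of rank `g ≥ 1` over `ℤ` with basis `ε_1, ..., ε_g` and discriminant not divisible by the prime number `p`, and
let `w_k` be the matrix of the numbers `Tr(ε_k ε_i ε_j)`. Then the number of `c ∈ F_p ^ g` for which `∑ c_k w_k` is
singular over `F_p` is not divisible by `p`. -/
theorem result :
    (∀ {k K : Type u} [Field k] [IsAlgClosed k] [Field K] [Algebra k K] (p : ℕ) [Fact p.Prime] [CharP k p]
      (g : ℕ) (a : Fin g → K) (b : Fin g → Kˣ) (θ : Fin g → Fin g → BrauerGroup.{u, u} K),
      (∀ i j, IsPSym p (a i) (b j) (θ i j)) →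
      (∀ (L : IntermediateField k K) (M : AddSubgroup K) (G : Subgroup Kˣ) (V N : Subgroup (BrauerGroup.{u, u} K)),
        M = AddSubgroup.closure ({x : K | x ∈ L} ∪ Set.range a) →
        G = Subgroup.closure ({y : Kˣ | (y : K) ∈ L} ∪ Set.range b) →
        V = Subgroup.closure {γ | ∃ (x : K) (y : Kˣ), x ∈ L ∧ (y : K) ∈ L ∧ IsPSym p x y γ} →
        N = Subgroup.closure {γ | ∃ x ∈ M, ∃ y ∈ G, (x ∈ L ∨ (y : K) ∈ L) ∧ IsPSym p x y γ} →
        ((∃ w : Matrix (Fin g) (Fin g) ℤ, g < p ∧ ¬ (p : ℤ) ∣ w.det ∧ ∏ i, ∏ j, θ i j ^ w i j ∈ N) ∨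
          (∃ w : Fin g → Matrix (Fin g) (Fin g) ℤ, (∀ k, ∏ i, ∏ j, θ i j ^ w k i j ∈ N) ∧
            ¬ p ∣ Nat.card {c : Fin g → ZMod p //
              (∑ k, c k • (w k).map (Int.castRingHom (ZMod p))).det = 0}) ∨
          (∀ i, ¬ AlgebraicIndependent k ![a i, (b i : K)])) →
        ∀ (s : ℕ) (z : Fin s → Kˣ),
        ∀ α ∈ Subgroup.closure ({γ | ∃ x ∈ M, ∃ y ∈ G, IsPSym p x y γ} ∪
          {γ | ∃ (x : K) (j : Fin s), IsPSym p x (z j) γ}),
          (∃ (x : Fin (g + s) → K) (y : Fin (g + s) → Kˣ) (σ : Fin (g + s) → BrauerGroup.{u, u} K), ∃ β ∈ V,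
            (∀ i, IsPSym p (x i) (y i) (σ i)) ∧ α = (∏ i, σ i) * β) ∧
          (∀ m : ℕ, 0 < m → (∀ β ∈ V, IndDvd β m) → IndDvd α (m * p ^ (g + s))) ∧
          (Algebra.trdeg k L ≤ 1 → V = ⊥ ∧ IndDvd α (p ^ (g + s)))) ∧
      (0 < g →
        ((∃ w : Fin g → Matrix (Fin g) (Fin g) ℤ, (∀ k, ∏ i, ∏ j, θ i j ^ w k i j = 1) ∧
            ¬ p ∣ Nat.card {c : Fin g → ZMod p //
              (∑ k, c k • (w k).map (Int.castRingHom (ZMod p))).det = 0}) ∨
          (∀ i, ¬ AlgebraicIndependent k ![a i, (b i : K)])) →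
        ∀ α ∈ Subgroup.closure {γ | ∃ x ∈ AddSubgroup.closure (Set.range (algebraMap k K) ∪ Set.range a),
          ∃ y ∈ Subgroup.closure (Set.range (Units.map (algebraMap k K).toMonoidHom) ∪ Set.range b),
            IsPSym p x y γ},
          (∃ (x : Fin (g - 1) → K) (y : Fin (g - 1) → Kˣ) (σ : Fin (g - 1) → BrauerGroup.{u, u} K),
            (∀ i, IsPSym p (x i) (y i) (σ i)) ∧ α = ∏ i, σ i) ∧
          IndDvd α (p ^ (g - 1)))) ∧
    (∀ (O : Type v) [CommRing O] (g : ℕ) (ε : Module.Basis (Fin g) ℤ O) (p : ℕ), 0 < g → p.Prime →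
      ¬ (p : ℤ) ∣ Algebra.discr ℤ ε → ∀ w : Fin g → Matrix (Fin g) (Fin g) ℤ,
        (∀ k i j, w k i j = Algebra.trace ℤ O (ε k * ε i * ε j)) →
        ¬ p ∣ Nat.card {c : Fin g → ZMod p // (∑ k, c k • (w k).map (Int.castRingHom (ZMod p))).det = 0}) := by
  refine ⟨?_, ?_⟩
  · intro k K _ _ _ _ p hp _ g a b θ hθ
    haveI : CharP K p := charP_of_injective_algebraMap (algebraMap k K).injective p
    have hQ : ∀ w : Matrix (Fin g) (Fin g) ℤ, ∏ i, ∏ j, θ i j ^ w i j = Qp p a b w := by
      intro w
      rw [Qp]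
      refine Finset.prod_congr rfl fun i _ => Finset.prod_congr rfl fun j _ => ?_
      rw [(isPSym_iff (a i) (b j) (θ i j)).1 (hθ i j)]
    refine ⟨?_, ?_⟩
    · intro L M G V N hM hG hV hN hrel s z α hα
      let Λ : AddSubgroup K := L.toSubfield.toSubring.toAddSubgroup
      let H : Subgroup Kˣ :=
        { carrier := {x : Kˣ | (x : K) ∈ L}
          mul_mem' := fun {a b} ha hb => by
            change ((a * b : Kˣ) : K) ∈ L
            rw [Units.val_mul]; exact L.mul_mem ha hb
          one_mem' := L.one_mem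
          inv_mem' := fun {a} ha => by
            change ((a⁻¹ : Kˣ) : K) ∈ L
            rw [Units.val_inv_eq_inv_val]; exact L.inv_mem ha }
      have hM' : M = AddSubgroup.closure ((Λ : Set K) ∪ Set.range a) := hM
      have hG' : G = Subgroup.closure ((H : Set Kˣ) ∪ Set.range b) := hG
      have hVH : ∀ x ∈ Λ, ∀ y ∈ H, psCl p x y ∈ V := fun x hx y hy => by
        rw [hV]
        exact Subgroup.subset_closure ⟨x, y, hx, hy, (isPSym_iff x y _).2 rfl⟩
      have hNT : N ≤ T0 p Λ H V a b := by
        rw [hN, Subgroup.closure_le]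
        rintro γ ⟨x, hx, y, hy, h, hγ⟩
        rw [isPSym_iff] at hγ
        subst hγ
        rw [hM'] at hx
        rw [hG'] at hy
        exact T0_low hVH hx hy h
      obtain ⟨r, w, hw, hcond⟩ := cond_all (p := p) g (fun w => Qp p a b w ∈ T0 p Λ H V a b) (by
        rcases hrel with ⟨w, h1, h2, h3⟩ | ⟨w, h1, h2⟩ | h
        · rw [hQ] at h3
          exact Or.inl ⟨w, h1, h2, hNT h3⟩
        · exact Or.inr (Or.inl ⟨w, fun k => hNT (by rw [← hQ]; exact h1 k), h2⟩)
        · refine Or.inr (Or.inr fun i => ?_)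
          change Qp p a b (Matrix.single i i 1) ∈ _
          rw [Qp_single, tsen_ps (k := k) _ _ (h i)]
          exact Subgroup.one_mem _)
      have hα' : α ∈ Subgroup.closure {γ | ∃ x ∈ AddSubgroup.closure ((Λ : Set K) ∪ Set.range a),
          ∃ y ∈ Subgroup.closure ((H : Set Kˣ) ∪ Set.range b), γ = psCl p x y} ⊔
          Subgroup.closure {γ | ∃ (x : K) (j : Fin s), γ = psCl p x (z j)} := by
        rw [← Subgroup.closure_union]
        convert hα using 3
        · ext γ
          simp only [Set.mem_setOf_eq, hM', hG', isPSym_iff]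
        · ext γ
          simp only [Set.mem_setOf_eq, isPSym_iff]
      obtain ⟨α1, h1, α2, h2, rfl⟩ := Subgroup.mem_sup.1 hα'
      obtain ⟨x, y, v, hv, rfl⟩ := main_sum hVH w hw hcond h1
      obtain ⟨x', rfl⟩ := insep z h2
      have hsum : (∏ i, psCl p (x i) (y i)) * v * ∏ j, psCl p (x' j) (z j) =
          (∏ i, psCl p (Fin.append x x' i) (Fin.append y z i)) * v := by
        rw [Fin.prod_univ_add]
        simp only [Fin.append_left, Fin.append_right]
        rw [mul_right_comm]
      have key : ∀ m : ℕ, 0 < m → (∀ β ∈ V, IndDvd β m) →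
          IndDvd ((∏ i, psCl p (x i) (y i)) * v * ∏ j, psCl p (x' j) (z j)) (m * p ^ (g + s)) := by
        intro m hm hVm
        rw [hsum, mul_comm m]
        exact ((hasRep_prod (g + s) _ _).mul ((hVm v hv).hasRep hm)).indDvd
      refine ⟨⟨Fin.append x x', Fin.append y z, fun i => psCl p (Fin.append x x' i) (Fin.append y z i), v, hv,
        fun i => (isPSym_iff _ _ _).2 rfl, hsum⟩, key, fun hL => ?_⟩
      have hVb : V = ⊥ := by
        rw [eq_bot_iff, hV, Subgroup.closure_le]
        rintro γ ⟨x, y, hx, hy, hγ⟩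
        rw [isPSym_iff] at hγ
        rw [hγ, V_bot L hL x y hx hy]
        exact Subgroup.one_mem _
      refine ⟨hVb, ?_⟩
      have h3 := key 1 one_pos (fun β hβ => by
        rw [hVb, Subgroup.mem_bot] at hβ
        subst hβ
        exact hasRep_one'.indDvd)
      rwa [one_mul] at h3
    · intro hg hrel α hα
      obtain ⟨g, rfl⟩ : ∃ g', g = g' + 1 := ⟨g - 1, by omega⟩
      rw [Nat.add_sub_cancel]
      let Λ : AddSubgroup K := (algebraMap k K).range.toAddSubgroup
      let H : Subgroup Kˣ := (Units.map (algebraMap k K).toMonoidHom).range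
      have hVH : ∀ x ∈ Λ, ∀ y ∈ H, psCl p x y ∈ (⊥ : Subgroup (BrauerGroup.{u, u} K)) := by
        rintro _ ⟨c, rfl⟩ y hy
        rw [psCl_const_left]
        exact Subgroup.one_mem _
      have hT0 : ∀ t ∈ T0 p Λ H ⊥ a b, t = 1 := by
        rintro _ ⟨l, lam, hl, hlam, v, hv, rfl⟩
        rw [Subgroup.mem_bot] at hv
        subst hv
        have e1 : ∀ i, psCl p (a i) (l i) = 1 := by
          intro i
          obtain ⟨c, hc⟩ := hl i
          rw [← hc]
          exact psCl_const_right (a i) c
        have e2 : ∀ i, psCl p (lam i) (b i) = 1 := by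
          intro i
          obtain ⟨c, hc⟩ := hlam i
          rw [← hc]
          exact psCl_const_left c (b i)
        simp only [e1, e2, Finset.prod_const_one, mul_one]
      have hα' : α ∈ Subgroup.closure {γ | ∃ x ∈ AddSubgroup.closure ((Λ : Set K) ∪ Set.range a),
          ∃ y ∈ Subgroup.closure ((H : Set Kˣ) ∪ Set.range b), γ = psCl p x y} := by
        convert hα using 2
        ext γ
        simp only [Set.mem_setOf_eq, isPSym_iff]
        exact Iff.rfl
      obtain ⟨P, t, ht, rfl⟩ := nf hVH hα'
      rw [hT0 t ht, mul_one]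
      obtain ⟨w, hw, hcount⟩ : ∃ w : Fin (g + 1) → Matrix (Fin (g + 1)) (Fin (g + 1)) ℤ,
          (∀ k, Qp p a b (w k) = 1) ∧ ¬ p ∣ Nat.card {c : Fin (g + 1) → ZMod p //
            (∑ k, c k • (w k).map (Int.castRingHom (ZMod p))).det = 0} := by
        rcases hrel with ⟨w, h1, h2⟩ | h
        · exact ⟨w, fun k => by rw [← hQ]; exact h1 k, h2⟩
        · refine ⟨fun i => Matrix.single i i 1, fun i => ?_, ?_⟩
          · rw [Qp_single, tsen_ps (k := k) _ _ (h i)]
          · have hsing : ∀ i : Fin (g + 1), (Matrix.single i i 1 : Matrix (Fin (g + 1)) (Fin (g + 1)) ℤ).map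
                (Int.castRingHom (ZMod p)) = Matrix.single i i 1 := by
              intro i
              ext u v
              rw [Matrix.map_apply, Matrix.single_apply, Matrix.single_apply]
              split_ifs <;> simp
            simp only [hsing]
            exact diag_count hg
      haveI : NeZero p := ⟨hp.out.ne_zero⟩
      obtain ⟨c, hc⟩ := (cond_many hg _ (P.map (Int.castRingHom (ZMod p))) hcount).1
      have hlift : ∀ k, (((c k).val : ℤ) : ZMod p) = c k := fun k => by
        rw [Int.cast_natCast, ZMod.natCast_zmod_val]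
      have h1 : (p : ℤ) ∣ (P + ∑ k, ((c k).val : ℤ) • w k).det := by
        rw [det_dvd_iff, red_sum]
        simp only [hlift]
        exact hc
      obtain ⟨x, y, hxy⟩ := main_sing (p := p) (a := a) (b := b) _ h1
      rw [Qp_add, Qp_sum] at hxy
      simp only [hw, _root_.one_zpow, Finset.prod_const_one, mul_one] at hxy
      rw [hxy]
      exact ⟨⟨x, y, fun i => psCl p (x i) (y i), fun i => (isPSym_iff _ _ _).2 rfl, rfl⟩,
        (hasRep_prod g x y).indDvd⟩
  · intro O _ g ε p hg hp hd w hw
    haveI : Fact p.Prime := ⟨hp⟩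
    have h := rm_ord ε p hg hd
    rw [OrdAt] at h
    have key : ∀ c : Fin g → ZMod p, ((∑ k, c k • (w k).map (Int.castRingHom (ZMod p))).det = 0) =
        ((∑ i, c i • red p (dif (rmw ε i))).det = 0) := by
      intro c
      have e : ∑ i, c i • red p (dif (rmw ε i)) = anti (∑ k, c k • (w k).map (Int.castRingHom (ZMod p))) := by
        rw [← anti_sum']
        refine Finset.sum_congr rfl fun i _ => ?_
        congr 1
        ext u v
        rcases u with u | u <;> rcases v with v | v <;>
          simp [anti, red, dif, rmw, hw]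
      rw [e, anti, det_anti]
    simp only [key]
    exact h

end Pool.Agent.Results.MP_43d240_ag.CharacteristicPart
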